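import Pool.Agent.Y997.NW.Stm

/-!
# A curve near a regular point: line or null intersection with the slabs
-/

set_option autoImplicit false

open MeasureTheory Set Topology Filter
open scoped ContDiff NNReal ENNReal

namespace Pool.Agent.Y693.NW

open Pool.Agent.W581.Cyc Pool.Agent.Y997.NW

/-- A curve germ in a complex line of direction `dir 0` contains a piece of the line. -/
theorem germ_line' {V : Set C2} (G : C2 →L[ℂ] ℂ) {ψ : ℂ → C2} {t₀ : ℂ}
    (h : ∀ᶠ t in 𝓝 t₀, DifferentiableAt ℂ ψ t ∧ ψ t ∈ V ∧ G (ψ t) = t)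
    (hconst : ∀ᶠ t in 𝓝 t₀, ψ t 0 + 2 * ψ t 1 = ψ t₀ 0 + 2 * ψ t₀ 1) :
    ∀ᶠ ζ : ℂ in 𝓝 0, ψ t₀ + ζ • dir 0 ∈ V := by
  have hψ : AnalyticAt ℂ ψ t₀ :=
    Complex.analyticAt_iff_eventually_differentiableAt.2 (h.mono fun t ht => ht.1)
  have hcoord : ∀ i : Fin 2, AnalyticAt ℂ (fun t => ψ t i) t₀ := by
    intro i
    exact ((EuclideanSpace.proj i : C2 →L[ℂ] ℂ).analyticAt _).comp hψ
  set χ : ℂ → ℂ := fun t => ψ t₀ 1 - ψ t 1 with hχ
  have hχa : AnalyticAt ℂ χ t₀ := analyticAt_const.sub (hcoord 1)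
  have hψχ : ∀ᶠ t in 𝓝 t₀, ψ t = ψ t₀ + χ t • dir 0 := by
    filter_upwards [hconst] with t ht
    ext i
    fin_cases i
    · simp [dir, hχ]
      linear_combination ht
    · simp [dir, hχ]
  rcases hχa.eventually_constant_or_nhds_le_map_nhds with h1 | h1
  · exfalso
    have h2 : ∀ᶠ t in 𝓝 t₀, t = t₀ := by
      filter_upwards [h1, hψχ, h] with t ht1 ht2 ht3
      have e : ψ t = ψ t₀ := by
        rw [ht2, ht1]; simp [hχ]
      rw [← ht3.2.2, e, h.self_of_nhds.2.2]
    have h3 : {t₀} ∈ 𝓝 t₀ := h2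
    rw [Metric.mem_nhds_iff] at h3
    obtain ⟨ε, hε, hb⟩ := h3
    have h4 : t₀ + (ε / 2 : ℝ) ∈ Metric.ball t₀ ε := by
      rw [Metric.mem_ball, dist_eq_norm, add_sub_cancel_left, Complex.norm_real, Real.norm_eq_abs,
        abs_of_pos (by linarith)]
      linarith
    have h5 := hb h4
    simp at h5
    linarith
  · have h0 : χ t₀ = 0 := by simp [hχ]
    rw [h0] at h1
    apply h1
    show ∀ᶠ t in 𝓝 t₀, ψ t₀ + χ t • dir 0 ∈ V
    filter_upwards [hψχ, h] with t ht1 ht2
    rw [← ht1]; exact ht2.2.1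

/-- The lines with real part in a translate of the integers form a null set. -/
theorem null_lines (c : ℝ) : volume {w : ℂ | ∃ m : ℤ, w.re = c + m} = 0 := by
  have e : {w : ℂ | ∃ m : ℤ, w.re = c + m} =
      Complex.measurableEquivRealProd ⁻¹' ({x : ℝ | ∃ m : ℤ, x = c + m} ×ˢ (univ : Set ℝ)) := by
    ext w
    simp
  have hcount : ({x : ℝ | ∃ m : ℤ, x = c + m}).Countable := by
    refine (Set.countable_range (fun m : ℤ => c + (m : ℝ))).mono ?_
    rintro x ⟨m, hm⟩
    exact ⟨m, hm.symm⟩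
  rw [e, Complex.volume_preserving_equiv_real_prod.measure_preimage_equiv]
  change ((volume : Measure ℝ).prod volume) _ = 0
  rw [Measure.prod_prod, hcount.measure_zero, zero_mul]

theorem null_near {h : ℂ → ℂ} {t h' : ℂ} (hd : HasStrictDerivAt h h' t) (hne : h' ≠ 0) (c : ℝ) :
    ∃ S ∈ 𝓝 t, volume (S ∩ {x | ∃ m : ℤ, (h x).re = c + m}) = 0 := by
  have hpos : 0 < ‖h'‖ := norm_pos_iff.2 hne
  have h1 := hd.hasStrictFDerivAt.isLittleO.def (half_pos hpos)
  rw [nhds_prod_eq] at h1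
  obtain ⟨S, hS, hb⟩ := mem_prod_self_iff.1 h1
  refine ⟨S, hS, ?_⟩
  have hanti : ∀ x ∈ S, ∀ y ∈ S, ‖x - y‖ ≤ (2 / ‖h'‖) * ‖h x - h y‖ := by
    intro x hx y hy
    have h2 : ‖h x - h y - (ContinuousLinearMap.toSpanSingleton ℂ h') (x - y)‖ ≤
      ‖h'‖ / 2 * ‖x - y‖ := hb (mk_mem_prod hx hy)
    simp only [ContinuousLinearMap.toSpanSingleton_apply, smul_eq_mul] at h2
    have h3 : ‖(x - y) * h'‖ ≤ ‖h x - h y‖ + ‖h x - h y - (x - y) * h'‖ := by
      have : (x - y) * h' = (h x - h y) - (h x - h y - (x - y) * h') := by ring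
      calc ‖(x - y) * h'‖ = ‖(h x - h y) - (h x - h y - (x - y) * h')‖ := by rw [← this]
        _ ≤ _ := norm_sub_le _ _
    rw [norm_mul] at h3
    rw [div_mul_eq_mul_div, le_div_iff₀ hpos]
    nlinarith
  set T := S ∩ {x | ∃ m : ℤ, (h x).re = c + m} with hT
  have hinj : InjOn h T := by
    intro x hx y hy hxy
    have h2 := hanti x hx.1 y hy.1
    rw [hxy, sub_self, norm_zero, mul_zero] at h2
    exact sub_eq_zero.1 (norm_le_zero_iff.1 h2)
  have hleft := hinj.leftInvOn_invFunOn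
  have hlip : LipschitzOnWith (Real.toNNReal (2 / ‖h'‖)) (Function.invFunOn h T) (h '' T) := by
    refine LipschitzOnWith.of_dist_le_mul ?_
    rintro _ ⟨x, hx, rfl⟩ _ ⟨y, hy, rfl⟩
    rw [hleft hx, hleft hy, dist_eq_norm, dist_eq_norm, Real.coe_toNNReal _ (by positivity)]
    exact hanti x hx.1 y hy.1
  have himg : Function.invFunOn h T '' (h '' T) = T := hleft.image_image
  have h4 := heM_image_le hlip
  rw [himg, heM_complex] at h4
  have h5 : volume (h '' T) = 0 := by
    refine measure_mono_null ?_ (null_lines c)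
    rintro _ ⟨x, hx, rfl⟩
    exact hx.2
  rw [h5, mul_zero] at h4
  exact nonpos_iff_eq_zero.1 h4

theorem cs_one {v z : C2} (h : cs v z = 1) : ∃ m : ℤ, (ell z).re = (ell v).re + m := by
  unfold cs at h
  have h1 : Real.sin (Real.pi * (ell (z - v)).re) = 0 := by
    have := Real.sin_sq_add_cos_sq (Real.pi * (ell (z - v)).re)
    have h2 : Real.sin (Real.pi * (ell (z - v)).re) ^ 2 = 0 := by linarith
    exact pow_eq_zero_iff (two_ne_zero) |>.1 h2
  obtain ⟨n, hn⟩ := Real.sin_eq_zero_iff.1 h1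
  refine ⟨n, ?_⟩
  have h2 : (ell (z - v)).re = n := by
    have : Real.pi * (ell (z - v)).re = Real.pi * n := by rw [← hn, mul_comm]
    exact mul_left_cancel₀ Real.pi_ne_zero this
  have h3 : ell (z - v) = ell z - ell v := by
    unfold ell
    simp only [PiLp.sub_apply]
    ring
  rw [h3, Complex.sub_re] at h2
  linarith

theorem t_DICH : S_DICH := by
  intro V v z₀ hz
  obtain ⟨G, ψ, N, K, hN, hzN, h1, h2, h3, h4⟩ := regular_param hz
  set t₀ := G z₀ with ht₀
  have hψ : AnalyticAt ℂ ψ t₀ :=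
    Complex.analyticAt_iff_eventually_differentiableAt.2 (h4.mono fun t ht => ht.1)
  have hcoord : ∀ i : Fin 2, AnalyticAt ℂ (fun t => ψ t i) t₀ := by
    intro i
    exact ((EuclideanSpace.proj i : C2 →L[ℂ] ℂ).analyticAt _).comp hψ
  set h : ℂ → ℂ := fun t => ell (ψ t) with hh
  have hℓ : AnalyticAt ℂ h t₀ := (hcoord 0).add (analyticAt_const.mul (hcoord 1))
  have hGc : ContinuousAt G z₀ := G.continuous.continuousAt
  rcases hℓ.deriv.eventually_eq_zero_or_eventually_ne_zero with hd | hd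
  · left
    -- `h` is constant near `t₀`
    have hconst : ∀ᶠ t in 𝓝 t₀, h t = h t₀ := by
      obtain ⟨ρ, hρ, hball⟩ := Metric.eventually_nhds_iff_ball.1
        (hd.and hℓ.eventually_analyticAt)
      refine Metric.eventually_nhds_iff_ball.2 ⟨ρ, hρ, fun t ht => ?_⟩
      exact Metric.isOpen_ball.is_const_of_deriv_eq_zero (convex_ball t₀ ρ).isPreconnected
        (fun x hx => (hball x hx).2.differentiableAt.differentiableWithinAt)
        (fun x hx => (hball x hx).1) ht (Metric.mem_ball_self hρ)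
    have hline := germ_line' G h4 hconst
    rw [h3] at hline
    have hA : ∀ᶠ w in 𝓝 z₀, w ∈ V → ell w = ell z₀ := by
      filter_upwards [hN.mem_nhds hzN, hGc.eventually hconst] with w hw hc hwV
      have e := h1 w ⟨hw, hwV⟩
      have hc' : ell (ψ (G w)) = ell (ψ t₀) := hc
      rw [e, h3] at hc'
      exact hc'
    have hB : ∀ᶠ w in 𝓝 z₀, ell w = ell z₀ → w ∈ V := by
      have hct : Tendsto (fun w : C2 => z₀ 1 - w 1) (𝓝 z₀) (𝓝 0) := by
        have hc1 : Continuous (fun w : C2 => z₀ 1 - w 1) :=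
          continuous_const.sub (contDiff_coord 1).continuous
        have := hc1.tendsto z₀
        rwa [sub_self] at this
      filter_upwards [hct.eventually hline] with w hw hell
      have e : z₀ + (z₀ 1 - w 1) • dir 0 = w := by
        unfold ell at hell
        ext i
        fin_cases i
        · simp [dir]
          linear_combination -hell
        · simp [dir]
      rw [← e]
      exact hw
    refine ⟨{w | (w ∈ V → ell w = ell z₀) ∧ (ell w = ell z₀ → w ∈ V)}, hA.and hB, ?_⟩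
    ext w
    constructor
    · rintro ⟨hwV, hw⟩
      exact ⟨hw, hw.1 hwV⟩
    · rintro ⟨hw, he⟩
      exact ⟨hw.2 he, hw⟩
  · right
    rw [eventually_nhdsWithin_iff] at hd
    obtain ⟨ρ, hρ, hball⟩ := Metric.eventually_nhds_iff_ball.1 (hd.and hℓ.eventually_analyticAt)
    set E : Set ℂ := {x | x ∈ Metric.ball t₀ ρ ∧ ∃ m : ℤ, (h x).re = (ell v).re + m} with hE
    have hnull : volume E = 0 := by
      have hE1 : volume (E \ {t₀}) = 0 := by
        refine measure_null_of_locally_null _ (fun x hx => ?_)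
        obtain ⟨⟨hxb, hxm⟩, hxt⟩ := hx
        obtain ⟨S, hS, hS0⟩ := null_near (hball x hxb).2.hasStrictDerivAt
          ((hball x hxb).1 hxt) (ell v).re
        refine ⟨S ∩ (E \ {t₀}), inter_mem (mem_nhdsWithin_of_mem_nhds hS) self_mem_nhdsWithin,
          measure_mono_null ?_ hS0⟩
        rintro y ⟨hyS, hyE, _⟩
        exact ⟨hyS, hyE.2⟩
      refine measure_mono_null (t := (E \ {t₀}) ∪ {t₀}) ?_ ?_
      · intro y hy
        by_cases hyt : y = t₀
        · exact Or.inr hyt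
        · exact Or.inl ⟨hy, hyt⟩
      · exact measure_union_null hE1 (by simp)
    refine ⟨N ∩ G ⁻¹' (Metric.ball t₀ ρ), inter_mem (hN.mem_nhds hzN)
      (hGc (Metric.ball_mem_nhds t₀ hρ)), ?_⟩
    set A : Set C2 := V ∩ (N ∩ G ⁻¹' (Metric.ball t₀ ρ)) ∩ {z | cs v z = 1} with hAdef
    have hAN : A ⊆ N ∩ V := fun w hw => ⟨hw.1.2.1, hw.1.1⟩
    have hsub : A ⊆ ψ '' (G '' A) := by
      intro w hw
      exact ⟨G w, ⟨w, hw, rfl⟩, h1 w (hAN hw)⟩
    have hlip : LipschitzOnWith K ψ (G '' A) := h2.mono (image_mono hAN)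
    have h6 := heM_image_le hlip
    rw [heM_complex] at h6
    have h7 : volume (G '' A) = 0 := by
      refine measure_mono_null ?_ hnull
      rintro _ ⟨w, hw, rfl⟩
      refine ⟨hw.1.2.2, ?_⟩
      have e : h (G w) = ell w := by
        change ell (ψ (G w)) = ell w
        rw [h1 w (hAN hw)]
      rw [e]
      exact cs_one hw.2
    rw [h7, mul_zero] at h6
    exact nonpos_iff_eq_zero.1 ((measure_mono hsub).trans h6)

end Pool.Agent.Y693.NW
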